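import Pool.Agent.H66.PO.Main

/-!
Wandering continua for cocompact Kleinian groups (problem MP_90715c_gt): the large translates form
porous sets, or the continuum is everywhere fat.
-/

open Set Filter Topology MeasureTheory

namespace Pool.Agent.Results.MP_90715c_gt.EverywhereFat

/-- Let `Γ` be a discrete cocompact subgroup of `SL(2, ℂ)`. There is a meager set `E ⊆ ℂ` of
Lebesgue measure zero, which depends only on `Γ`, such that for every nontrivial continuum `K` on
the Riemann sphere which meets only finitely many of its translates `g K`, `g ∈ Γ` (for instance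
a wandering one), exactly one of the following two cases occurs.

(P) For all disjoint closed subsets `C₁`, `C₂` of the sphere the closure `F` of the union of ALL
translates `g K`, `g ∈ Γ`, which meet both `C₁` and `C₂` is uniformly porous: there is `ρ > 0`
such that for all `a ∈ ℂ` and `r > 0` there is a point `z` with `|z - a| ≤ r` such that `F` does
not meet the disc with centre `z` and radius `ρ r`; moreover the Hausdorff dimension of `F ∩ ℂ` is
smaller than two and `F ∩ ℂ` lies in `E`. (Two different points of `K`, as sets `C₁` and `C₂`,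
give a set `F` which contains `K`.)

(F) `K` is everywhere fat: for every `η > 0` there is `M > 0` such that for every connected set
`A ⊆ K ∩ ℂ`, all `a, b ∈ A` and all `s, r > 0` with `10 s ≤ |b - a|`, `M r ≤ s` there is a point
`w` of the circle `|w - a| = s` such that all points of the closed disc of radius `r` around `w`
have distance at most `η r` to some point of `A`; moreover for every finite family of nonempty
open subsets of the sphere there are infinitely many `g ∈ Γ` such that `g K` meets all of them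
(so translates of `K` converge to the whole sphere), and `E` contains all points `p ∈ K ∩ ℂ` for
which there are `u ∈ ℂ`, `ε > 0` such that `K` does not meet the discs with centres `p + u / 4 ^ k`
and radii `ε / 4 ^ k` for all large `k` (for instance the vertices of open sectors which are
disjoint from `K`). -/
theorem result (Γ : Subgroup (Matrix.SpecialLinearGroup (Fin 2) ℂ)) [DiscreteTopology Γ]
    [CompactSpace (Matrix.SpecialLinearGroup (Fin 2) ℂ ⧸ Γ)] :
    ∃ E : Set ℂ, IsMeagre E ∧ volume E = 0 ∧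
      ∀ K : Set (OnePoint ℂ), IsCompact K → IsConnected K → K.Nontrivial →
        {g : Matrix.SpecialLinearGroup (Fin 2) ℂ | g ∈ Γ ∧ ∃ x ∈ K,
          (Matrix.SpecialLinearGroup.toGL g : GL (Fin 2) ℂ) • x ∈ K}.Finite →
        Xor
          (∀ C₁ C₂ F : Set (OnePoint ℂ), IsClosed C₁ → IsClosed C₂ → Disjoint C₁ C₂ →
            F = closure {x : OnePoint ℂ | ∃ g ∈ Γ,
              (∃ k ∈ K, (Matrix.SpecialLinearGroup.toGL g : GL (Fin 2) ℂ) • k = x) ∧
              (∃ k ∈ K, (Matrix.SpecialLinearGroup.toGL g : GL (Fin 2) ℂ) • k ∈ C₁) ∧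
              ∃ k ∈ K, (Matrix.SpecialLinearGroup.toGL g : GL (Fin 2) ℂ) • k ∈ C₂} →
            (∃ ρ > (0 : ℝ), ∀ a : ℂ, ∀ r > (0 : ℝ), ∃ z : ℂ, ‖z - a‖ ≤ r ∧
              ∀ v : ℂ, ‖v - z‖ < ρ * r → (v : OnePoint ℂ) ∉ F) ∧
            dimH {z : ℂ | (z : OnePoint ℂ) ∈ F} < 2 ∧
            ∀ p : ℂ, (p : OnePoint ℂ) ∈ F → p ∈ E)
          ((∀ η > (0 : ℝ), ∃ M > (0 : ℝ), ∀ A : Set ℂ, IsPreconnected A →
              (∀ z ∈ A, (z : OnePoint ℂ) ∈ K) → ∀ a ∈ A, ∀ b ∈ A, ∀ s > (0 : ℝ), ∀ r > (0 : ℝ),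
                10 * s ≤ ‖b - a‖ → M * r ≤ s →
                  ∃ w : ℂ, ‖w - a‖ = s ∧ ∀ v : ℂ, ‖v - w‖ ≤ r → ∃ u ∈ A, ‖u - v‖ ≤ η * r) ∧
            (∀ 𝒪 : Set (Set (OnePoint ℂ)), 𝒪.Finite → (∀ U ∈ 𝒪, IsOpen U ∧ U.Nonempty) →
              {g : Matrix.SpecialLinearGroup (Fin 2) ℂ | g ∈ Γ ∧ ∀ U ∈ 𝒪, ∃ x ∈ K,
                (Matrix.SpecialLinearGroup.toGL g : GL (Fin 2) ℂ) • x ∈ U}.Infinite) ∧
            ∀ p : ℂ, (p : OnePoint ℂ) ∈ K → (∃ u : ℂ, ∃ ε > (0 : ℝ), ∀ᶠ k : ℕ in atTop,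
              ∀ z : ℂ, ‖z - (p + u / 4 ^ k)‖ < ε / 4 ^ k → (z : OnePoint ℂ) ∉ K) → p ∈ E) := by
  obtain ⟨E, h1, h2, h3⟩ := Pool.Agent.H66.PO.dichotomy Γ
  refine ⟨E, h1, h2, fun K hK hKc hn hfin => ?_⟩
  rcases h3 K hK hKc hn hfin with ⟨hP, hF⟩ | ⟨hF, hP⟩
  · exact Or.inl ⟨fun C₁ C₂ F hC₁ hC₂ hd hFe => by subst hFe; exact hP C₁ C₂ hC₁ hC₂ hd, hF⟩
  · exact Or.inr ⟨hF, fun h => hP fun C₁ C₂ hC₁ hC₂ hd => h C₁ C₂ _ hC₁ hC₂ hd rfl⟩

end Pool.Agent.Results.MP_90715c_gt.EverywhereFat
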