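import Pool.Agent.H33.GC.Main

/-!
Wandering continua for cocompact Kleinian groups (problem MP_90715c_gt): every continuum in
general position meets infinitely many of its translates.
-/

open Set Filter Topology MeasureTheory

namespace Pool.Agent.Results.MP_90715c_gt.GeneralPosition

/-- Let `Γ` be a discrete cocompact subgroup of `SL(2, ℂ)`, let `K` be a compact connected subset
of the Riemann sphere with more than one point and `p ∈ K`. There is a meager set `E ⊆ ℂ` of
Lebesgue measure zero such that for all `h ∈ SL(2, ℂ)` with `h p ∈ ℂ` outside of `E` the continuum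
`h K` meets its translate `g h K` for infinitely many `g ∈ Γ`; in particular it is not
wandering. -/
theorem result (Γ : Subgroup (Matrix.SpecialLinearGroup (Fin 2) ℂ)) [DiscreteTopology Γ]
    [CompactSpace (Matrix.SpecialLinearGroup (Fin 2) ℂ ⧸ Γ)] (K : Set (OnePoint ℂ))
    (hK : IsCompact K) (hc : IsConnected K) (hn : K.Nontrivial) (p : OnePoint ℂ) (hp : p ∈ K) :
    ∃ E : Set ℂ, IsMeagre E ∧ volume E = 0 ∧
      ∀ (h : Matrix.SpecialLinearGroup (Fin 2) ℂ) (β : ℂ), β ∉ E →
        (Matrix.SpecialLinearGroup.toGL h : GL (Fin 2) ℂ) • p = (β : OnePoint ℂ) →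
        {g : Matrix.SpecialLinearGroup (Fin 2) ℂ | g ∈ Γ ∧ ∃ x ∈ K, ∃ y ∈ K,
          (Matrix.SpecialLinearGroup.toGL g : GL (Fin 2) ℂ) •
            (Matrix.SpecialLinearGroup.toGL h : GL (Fin 2) ℂ) • x =
            (Matrix.SpecialLinearGroup.toGL h : GL (Fin 2) ℂ) • y}.Infinite :=
  Pool.Agent.H33.GC.main2 Γ K hK hc hn p hp

end Pool.Agent.Results.MP_90715c_gt.GeneralPosition
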