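import Pool.Agent.H33.NS.Main
import Pool.Agent.H81.FG.Gen1

/-!
Wandering continua for cocompact Kleinian groups (problem MP_90715c_gt): a wandering continuum
does not separate the sphere.
-/

namespace Pool.Agent.Results.MP_90715c_gt.NoSeparation

/-- Let `Γ` be a discrete cocompact subgroup of `SL(2, ℂ)` and let `K` be a compact connected
subset of the Riemann sphere which is disjoint from `g K` for all `g ∈ Γ`, `g ≠ ±1`. Then the
complement of `K` in the sphere is connected. -/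
theorem result (Γ : Subgroup (Matrix.SpecialLinearGroup (Fin 2) ℂ)) [DiscreteTopology Γ]
    [CompactSpace (Matrix.SpecialLinearGroup (Fin 2) ℂ ⧸ Γ)] (K : Set (OnePoint ℂ))
    (hK : IsCompact K) (hc : IsConnected K)
    (hw : ∀ g ∈ Γ, g ≠ 1 → g ≠ -1 →
      ∀ x ∈ K, (Matrix.SpecialLinearGroup.toGL g : GL (Fin 2) ℂ) • x ∉ K) :
    IsConnected Kᶜ := by
  have h : Pool.Agent.H90.WC.Hyp Γ K :=
    ⟨Pool.Agent.H90.WC.disc_of_discrete Γ, Pool.Agent.H90.WC.coc_of_compact Γ, hK, hc, hw⟩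
  refine ⟨?_, Pool.Agent.H81.NS.preconn_compl h⟩
  obtain ⟨C, hC, hcoc⟩ := h.coc
  obtain ⟨U, hU, h1U, hΓU⟩ := h.disc
  obtain ⟨g, hg, hg0⟩ := Pool.Agent.H81.FG.exists_ne Γ hC hcoc hU h1U hΓU 1 1
  rw [inv_one, one_mul, mul_one] at hg0
  obtain ⟨x, hx⟩ := hc.nonempty
  refine ⟨_, hw g hg ?_ ?_ x hx⟩
  · rintro rfl
    exact hg0 (by simp)
  · rintro rfl
    exact hg0 (by simp)

end Pool.Agent.Results.MP_90715c_gt.NoSeparation
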