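import Pool.Agent.H81.PS.Fin
import Pool.Agent.H20.WC.Main2

/-!
Wandering continua for cocompact Kleinian groups (problem MP_90715c_gt): nondegenerate continua
in a wandering continuum have dimension at least `1 + c`, and almost all of their slices have
dimension at least `c` everywhere.
-/

open Set MeasureTheory

namespace Pool.Agent.Results.MP_90715c_gt.SliceDimension

/-- Let `Γ` be a discrete cocompact subgroup of `SL(2, ℂ)` and let `K` be a compact connected
subset of the Riemann sphere which is disjoint from `g K` for all `g ∈ Γ`, `g ≠ ±1`. There is a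
constant `c > 0` with the following properties.

If `K` has more than one point then its Hausdorff dimension is at least `1 + c`.

Let `A ⊆ ℂ` be a compact connected set with more than one point which is contained in `K`. Then
the Hausdorff dimension of `A` is at least `1 + c`. Let moreover `f : ℂ → ℝ` be strictly
differentiable with nonzero derivative at every point of `A`. Then `f` is not constant on `A`; for
almost every `t` the slice `A ∩ f⁻¹(t)` has Hausdorff dimension at least `c` in every ball around
each of its points; and the set of the `t` for which the slice `A ∩ f⁻¹(t)` is not perfect is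
meager. -/
theorem result (Γ : Subgroup (Matrix.SpecialLinearGroup (Fin 2) ℂ)) [DiscreteTopology Γ]
    [CompactSpace (Matrix.SpecialLinearGroup (Fin 2) ℂ ⧸ Γ)] (K : Set (OnePoint ℂ))
    (hK : IsCompact K) (hc : IsConnected K)
    (hw : ∀ g ∈ Γ, g ≠ 1 → g ≠ -1 →
      ∀ x ∈ K, (Matrix.SpecialLinearGroup.toGL g : GL (Fin 2) ℂ) • x ∉ K) :
    ∃ c > (0 : ℝ),
      (K.Nontrivial → ENNReal.ofReal (1 + c) ≤ dimH ((fun z : ℂ => (z : OnePoint ℂ)) ⁻¹' K)) ∧
      ∀ A : Set ℂ, IsCompact A → IsPreconnected A → A.Nontrivial →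
        (∀ z ∈ A, (z : OnePoint ℂ) ∈ K) → ENNReal.ofReal (1 + c) ≤ dimH A ∧
          ∀ f : ℂ → ℝ, (∀ z ∈ A, ∃ f' : ℂ →L[ℝ] ℝ, f' ≠ 0 ∧ HasStrictFDerivAt f f' z) →
            (f '' A).Nontrivial ∧
            (∀ᵐ t : ℝ, ∀ x ∈ A, f x = t → ∀ r > (0 : ℝ),
              ENNReal.ofReal c ≤ dimH (A ∩ f ⁻¹' {t} ∩ Metric.ball x r)) ∧
            IsMeagre {t : ℝ | ¬ Perfect (A ∩ f ⁻¹' {t})} :=
  Pool.Agent.H81.PS.fin (Pool.Agent.H90.WC.hyp_of Γ hK hc hw)

end Pool.Agent.Results.MP_90715c_gt.SliceDimension
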